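import Pool.Agent.Work.MP_3b24f6_gt.OptInst

/-!
# Balls are optimal for isoperimetry in the rank one spaces over `ℂ`, `ℍ`, `𝕆`
-/

set_option autoImplicit false

open Pool.Agent.Work.MP_3b24f6_gt Pool.Agent.Work.MP_3b24f6_gt.Riem

namespace Pool.Agent.Results.MP_3b24f6_gt.BallsOptimal

/-- In every complex hyperbolic space of complex dimension at least two, every quaternionic
hyperbolic space of quaternionic dimension at least two and in the Cayley hyperbolic plane,
geodesic balls have the least perimeter among the measurable sets of their volume. -/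
theorem result :
    (∀ (n : ℕ) (J : EuclideanSpace ℝ (Fin n) →L[ℝ] EuclideanSpace ℝ (Fin n)),
      IsCplx J → 4 ≤ n → Riem.BallsOptimal (metC J)) ∧
    (∀ (n : ℕ) (I J : EuclideanSpace ℝ (Fin n) →L[ℝ] EuclideanSpace ℝ (Fin n)),
      IsQuat I J → 8 ≤ n → Riem.BallsOptimal (metH I J)) ∧
    (∀ S : Fin 9 → EuclideanSpace ℝ (Fin 16) →L[ℝ] EuclideanSpace ℝ (Fin 16),
      IsOct S → Riem.BallsOptimal (metO S)) ∧
    ∃ S : Fin 9 → EuclideanSpace ℝ (Fin 16) →L[ℝ] EuclideanSpace ℝ (Fin 16), IsOct S :=
  ⟨fun n J h hn => Opt.ballsC J h (by simpa using hn),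
    fun n I J h hn => Opt.ballsH I J h (by simpa using hn),
    fun S h => Opt.ballsO S h (by simp), Opt.exists_isOct⟩

end Pool.Agent.Results.MP_3b24f6_gt.BallsOptimal
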